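import Mathlib
import Pool.Agent.H.MP_711652_nt.RateE

set_option autoImplicit false

namespace Pool.Agent.H.MP_711652_nt.Variants.ExponentRates

open Filter Topology

/-- The number of primes in `(y, y + h]`. -/
def primeCount (y h : ℕ) : ℕ := ((Finset.Ioc y (y + h)).filter Nat.Prime).card

/-- Around `p` the primes are equidistributed on all scales between `a` and `b`: there is a
density `μ > 0` such that for every natural number `r` in `[a, b]`, for all but at most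
`ε * (2 * r + 1)` of the natural numbers `y` with `|y - p| ≤ r`, all the intervals `(y, y + h]`
with `h` in `[a, b]` contain `(1 ± ε) μ h` primes. -/
def LocallyRegular (ε a b : ℝ) (p : ℕ) : Prop :=
  ∃ μ : ℝ, 0 < μ ∧ ∀ r : ℕ, a ≤ r → (r : ℝ) ≤ b →
    ({y : ℕ | p ≤ y + r ∧ y ≤ p + r ∧ ∃ h : ℕ, a ≤ h ∧ (h : ℝ) ≤ b ∧
      ε * (μ * h) < |(primeCount y h : ℝ) - μ * h|}.ncard : ℝ) ≤ ε * (2 * r + 1)

/-- Every interval `(y, y + g]` with `|y - p| ≤ K * g` contains a prime. -/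
def NoLongGap (K g : ℝ) (p : ℕ) : Prop :=
  ∀ y : ℕ, |(y : ℝ) - p| ≤ K * g → ∃ q : ℕ, q.Prime ∧ y < q ∧ (q : ℝ) ≤ y + g

/-- The primes `p` such that `p` is not locally regular between `(log p) ^ α / G` and
`(log p) ^ α * G`, where `G = exp ((log log p) ^ γ)`, or some interval `(y, y + (log p) ^ α]` with
`|y - p| ≤ K * (log log p) ^ κ * (log p) ^ α` contains no prime. -/
def Exceptional (α γ ε K κ : ℝ) : Set ℕ :=
  {p : ℕ | p.Prime ∧ ¬ (LocallyRegular ε
    ((Real.log p) ^ α / Real.exp ((Real.log (Real.log p)) ^ γ))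
    ((Real.log p) ^ α * Real.exp ((Real.log (Real.log p)) ^ γ)) p ∧
    NoLongGap (K * (Real.log (Real.log p)) ^ κ) ((Real.log p) ^ α) p)}

open Classical in
/-- The relative logarithmic density of the set `S` of primes up to `x`. -/
noncomputable def logDensity (S : Set ℕ) (x : ℕ) : ℝ :=
  (∑ p ∈ (Finset.Icc 1 x).filter (· ∈ S), 1 / (p : ℝ)) / Real.log (Real.log x)

lemma exceptional_iff (α γ ε K κ : ℝ) (p : ℕ) :
    p ∈ Exceptional α γ ε K κ ↔ Pool.Agent.H.MP_711652_nt.QV ε γ K κ α p := by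
  classical
  have hset : ∀ (μ a b : ℝ) (r : ℕ), {y : ℕ | p ≤ y + r ∧ y ≤ p + r ∧ ∃ h : ℕ, a ≤ h ∧
      (h : ℝ) ≤ b ∧ ε * (μ * h) < |(primeCount y h : ℝ) - μ * h|} =
      ↑((Finset.Icc (p - r) (p + r)).filter (fun y => ∃ h : ℕ, a ≤ h ∧ (h : ℝ) ≤ b ∧
        ε * (μ * h) < |(Pool.Agent.H.MP_711652_nt.cnt y h : ℝ) - μ * h|)) := by
    intro μ a b r
    ext y
    rw [Finset.mem_coe, Finset.mem_filter, Finset.mem_Icc, Set.mem_ofPred_eq]
    constructor
    · rintro ⟨h5, h6, h7⟩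
      exact ⟨⟨by omega, h6⟩, h7⟩
    · rintro ⟨⟨h5, h6⟩, h7⟩
      exact ⟨by omega, h6, h7⟩
  have hreg : ∀ (a b : ℝ), LocallyRegular ε a b p ↔
      Pool.Agent.H.MP_711652_nt.LRs ε a b p := by
    intro a b
    unfold LocallyRegular Pool.Agent.H.MP_711652_nt.LRs
    constructor
    · rintro ⟨μ, hμ, h1⟩
      refine ⟨μ, hμ, fun r hr hb => ?_⟩
      have := h1 r hr hb
      rw [hset, Set.ncard_coe_finset] at this
      convert this
    · rintro ⟨μ, hμ, h1⟩
      refine ⟨μ, hμ, fun r hr hb => ?_⟩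
      rw [hset, Set.ncard_coe_finset]
      convert h1 r hr hb
  have hgap : ¬ NoLongGap (K * (Real.log (Real.log p)) ^ κ) ((Real.log p) ^ α) p ↔ ∃ y : ℕ,
      |(y : ℝ) - p| ≤ K * (Real.log (Real.log p)) ^ κ * (Real.log p) ^ α ∧
      ∀ q : ℕ, y < q → (q : ℝ) ≤ y + (Real.log p) ^ α → ¬ q.Prime := by
    unfold NoLongGap
    push Not
    constructor
    · rintro ⟨y, h1, h2⟩
      exact ⟨y, h1, fun q hq hq' hq'' => absurd hq' (not_le.2 (h2 q hq'' hq))⟩
    · rintro ⟨y, h1, h2⟩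
      exact ⟨y, h1, fun q hq'' hq => by
        by_contra hcon
        exact h2 q hq (not_lt.1 hcon) hq''⟩
  unfold Exceptional Pool.Agent.H.MP_711652_nt.QV Pool.Agent.H.MP_711652_nt.QS
    Pool.Agent.H.MP_711652_nt.QN
  rw [Set.mem_ofPred_eq, not_and_or, hreg, hgap, Real.exp_neg, div_eq_mul_inv]
  tauto

open Classical in
lemma sum_eq (α γ ε K κ : ℝ) (x : ℕ) : logDensity (Exceptional α γ ε K κ) x =
    (∑ p ∈ (Finset.Icc 1 x).filter (Pool.Agent.H.MP_711652_nt.QV ε γ K κ α), 1 / (p : ℝ)) /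
      Real.log (Real.log x) := by
  unfold logDensity
  congr 1
  apply Finset.sum_congr _ (fun _ _ => rfl)
  ext p
  rw [Finset.mem_filter, Finset.mem_filter, exceptional_iff]

/-- There are a countable set `P` of exponents and for `0 < s < 1` a set `E s` of exponents of
Hausdorff dimension at most `s` which contains `P`, such that for all `α > 1`, `ε > 0`, `K` and
`0 ≤ γ < 1`: if `α` is not in `E s`, then for all `κ, β ≥ 0` with `κ + β < s` and
`β < s * (1 - γ)` the relative logarithmic density of the exceptional primes up to `x` is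
`o((log log x) ^ (-β))`; and if `α` is not in `P`, then (for `κ = 0`) its lower limit is zero. -/
theorem result :
    ∃ P : Set ℝ, P.Countable ∧ ∃ E : ℝ → Set ℝ,
      (∀ s : ℝ, 0 < s → s < 1 → P ⊆ E s ∧ dimH (E s) ≤ ENNReal.ofReal s) ∧
      ∀ α : ℝ, 1 < α → ∀ ε γ K : ℝ, 0 < ε → 0 ≤ γ → γ < 1 →
        (∀ s κ β : ℝ, 0 < s → s < 1 → α ∉ E s → 0 ≤ κ → 0 ≤ β → κ + β < s → β < s * (1 - γ) →
          Tendsto (fun x : ℕ => logDensity (Exceptional α γ ε K κ) x *
            (Real.log (Real.log x)) ^ β) atTop (𝓝 0)) ∧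
        (α ∉ P → ∀ τ : ℝ, 0 < τ →
          ∃ᶠ x : ℕ in atTop, logDensity (Exceptional α γ ε K 0) x < τ) := by
  obtain ⟨P, hP, E, hE, hmain⟩ := Pool.Agent.H.MP_711652_nt.exponent_theorem
  refine ⟨P, hP, E, fun s hs hs1 => hE s hs hs1.le, ?_⟩
  intro α hα ε γ K hε hγ hγ1
  obtain ⟨h1, h2⟩ := hmain α hα ε γ K hε hγ hγ1
  refine ⟨?_, ?_⟩
  · intro s κ β hs hs1 hαE hκ hβ hκβ hβγ
    have h3 := h1 s κ β hs hs1.le hαE hκ hβ hκβ hβγ
    simpa only [sum_eq] using h3
  · intro hαP τ hτ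
    have h3 := h2 hαP τ hτ
    simpa only [sum_eq] using h3

end Pool.Agent.H.MP_711652_nt.Variants.ExponentRates
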