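import Mathlib
import Pool.Agent.H.MP_711652_nt.BiLipQ
import Pool.Agent.H.MP_711652_nt.QW.GAFin
import Pool.Agent.H.MP_711652_nt.QW.GAPrime

/-!
# Average gaps around almost every prime at all scales: size and oscillation

`avgGap a b` is the average of the gaps `p (i + 1) - p i`, `a ≤ i < b`. For all but at most
`(C / t) * N` of the indices `k < N`, all the averages `avgGap a b`, `a ≤ k ≤ b`, lie between
`log (b + 2) / t` and `t * log (b + 2)`, and for every `0 < ε ≤ 1` the average gap around `k` makes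
less than `C * ε⁻² * log (2 * t * log (8 / ε))` jumps by a factor `1 + ε` over the scales from `1`
(the single gap) to `N`.
-/

set_option autoImplicit false

namespace Pool.Agent.H.MP_711652_nt.Variants.GapAverageJumps

open Pool.Agent.H.MP_711652_nt.QW Pool.Agent.H.MP_711652_nt

/-- The average of the gaps `p (i + 1) - p i`, `a ≤ i < b`, where `p i = Nat.nth Nat.Prime i` (so
`p 0 = 2`). -/
noncomputable def avgGap (a b : ℕ) : ℝ :=
  ((Nat.nth Nat.Prime b : ℝ) - Nat.nth Nat.Prime a) / ((b : ℝ) - a)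

/-- All averages of the gaps over intervals of indices around `k` have the right size, up to the
factor `t`. -/
def AllAverages (t : ℝ) (k : ℕ) : Prop :=
  ∀ a b : ℕ, a ≤ k → k ≤ b → a < b →
    Real.log (b + 2) / t ≤ avgGap a b ∧ avgGap a b ≤ t * Real.log (b + 2)

/-- `m` jumps by a factor `1 + ε` of the average gap around `k`, at scales up to `N`: there are
intervals of indices `[a i, b i)` and `[a' i, b' i)` (`i < m`) containing `k`, of lengths
`b i - a i ≤ b' i - a' i ≤ N`, over which the average gaps differ at least by the factor `1 + ε`, and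
`2 * (b' i - a' i) ≤ b (i + 1) - a (i + 1)`. -/
def Jumps (N : ℕ) (ε : ℝ) (m k : ℕ) : Prop :=
  ∃ a b a' b' : ℕ → ℕ,
    (∀ i, i < m → a i ≤ k ∧ k < b i ∧ a' i ≤ k ∧ k < b' i ∧
      b i - a i ≤ b' i - a' i ∧ b' i - a' i ≤ N ∧
      ((1 + ε) * avgGap (a i) (b i) ≤ avgGap (a' i) (b' i) ∨
        (1 + ε) * avgGap (a' i) (b' i) ≤ avgGap (a i) (b i))) ∧
    (∀ i, i + 1 < m → 2 * (b' i - a' i) ≤ b (i + 1) - a (i + 1))

lemma avgGap_eq (a b : ℕ) (hab : a ≤ b) : avgGap a b = av gapK a b := by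
  unfold avgGap av
  rw [sum_gapK a b hab]

/-- The averages over all intervals around `k`, from the law for the distances to `p k`. -/
lemma all_of_two (t : ℝ) (ht : 0 < t) (k : ℕ) (h : BiLip.Two (1 / (t / 2)) (t / 2) k) :
    AllAverages t k := by
  intro a b hak hkb hab
  have hakR : (a : ℝ) ≤ k := by exact_mod_cast hak
  have hkbR : (k : ℝ) ≤ b := by exact_mod_cast hkb
  have habR : (a : ℝ) < b := by exact_mod_cast hab
  have ha0 : (0 : ℝ) ≤ a := Nat.cast_nonneg a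
  have hk0 : (0 : ℝ) ≤ k := Nat.cast_nonneg k
  have hb0 : (0 : ℝ) ≤ b := Nat.cast_nonneg b
  have hba : 0 < (b : ℝ) - a := by linarith
  obtain ⟨hb1, hb2⟩ := h b
  obtain ⟨ha1, ha2⟩ := h a
  have hpb : (BiLip.pr k : ℝ) ≤ BiLip.pr b := by
    exact_mod_cast BiLip.pr_strictMono.monotone hkb
  have hpa : (BiLip.pr a : ℝ) ≤ BiLip.pr k := by
    exact_mod_cast BiLip.pr_strictMono.monotone hak
  rw [abs_of_nonneg (show 0 ≤ (b : ℝ) - k by linarith),
    abs_of_nonneg (show 0 ≤ (BiLip.pr b : ℝ) - BiLip.pr k by linarith)] at hb1 hb2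
  rw [abs_of_nonpos (show (a : ℝ) - k ≤ 0 by linarith),
    abs_of_nonpos (show (BiLip.pr a : ℝ) - BiLip.pr k ≤ 0 by linarith)] at ha1 ha2
  obtain ⟨l, hl⟩ : ∃ l, l = Real.log ((b : ℝ) + 2) := ⟨_, rfl⟩
  obtain ⟨lb, hlb⟩ : ∃ lb, lb = Real.log ((b : ℝ) + k + 2) := ⟨_, rfl⟩
  obtain ⟨la, hla⟩ : ∃ la, la = Real.log ((a : ℝ) + k + 2) := ⟨_, rfl⟩
  have hl0 : 0 < l := by rw [hl]; exact Real.log_pos (by linarith)
  have hla0 : 0 < la := by rw [hla]; exact Real.log_pos (by linarith)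
  have hlb1 : l ≤ lb := by rw [hl, hlb]; exact Real.log_le_log (by linarith) (by linarith)
  have hlb2 : lb ≤ 2 * l := by
    have e1 : Real.log ((b : ℝ) + k + 2) ≤ Real.log (((b : ℝ) + 2) ^ 2) :=
      Real.log_le_log (by linarith) (by nlinarith)
    rw [Real.log_pow] at e1
    push_cast at e1
    rw [hl, hlb]
    exact e1
  have hla2 : la ≤ 2 * l := by
    have e1 : la ≤ lb := by rw [hla, hlb]; exact Real.log_le_log (by linarith) (by linarith)
    linarith
  rw [← hlb] at hb1 hb2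
  rw [← hla] at ha1 ha2
  rw [← hl]
  have hsum : (BiLip.pr b : ℝ) - BiLip.pr a =
      ((BiLip.pr b : ℝ) - BiLip.pr k) + -((BiLip.pr a : ℝ) - BiLip.pr k) := by ring
  have hg : avgGap a b = ((BiLip.pr b : ℝ) - BiLip.pr a) / ((b : ℝ) - a) := rfl
  rw [hg]
  constructor
  · rw [le_div_iff₀ hba]
    -- the lower bound
    have key : l * ((b : ℝ) - a) ≤ 2 * (((b : ℝ) - k) * lb + ((k : ℝ) - a) * la) := by
      rcases le_total (b : ℝ) (2 * k) with hc | hc
      · have e1 : l ≤ 2 * la := by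
          have e2 : Real.log ((b : ℝ) + 2) ≤ Real.log (((a : ℝ) + k + 2) ^ 2) :=
            Real.log_le_log (by linarith) (by nlinarith)
          rw [Real.log_pow] at e2
          push_cast at e2
          rw [hl, hla]
          exact e2
        have e3 : ((b : ℝ) - k) * l ≤ ((b : ℝ) - k) * (2 * lb) :=
          mul_le_mul_of_nonneg_left (by linarith) (by linarith)
        have e4 : ((k : ℝ) - a) * l ≤ ((k : ℝ) - a) * (2 * la) :=
          mul_le_mul_of_nonneg_left e1 (by linarith)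
        linarith
      · have e1 : (b : ℝ) - a ≤ 2 * ((b : ℝ) - k) := by linarith
        have e2 : l * ((b : ℝ) - a) ≤ lb * (2 * ((b : ℝ) - k)) :=
          mul_le_mul hlb1 e1 hba.le (by linarith)
        have e3 : 0 ≤ ((k : ℝ) - a) * la := mul_nonneg (by linarith) hla0.le
        linarith
    have e1 : 1 / (t / 2) * (((b : ℝ) - k) * lb + ((k : ℝ) - a) * la) ≤
        (BiLip.pr b : ℝ) - BiLip.pr a := by
      rw [hsum]
      have e2 : 1 / (t / 2) * (((b : ℝ) - k) * lb + ((k : ℝ) - a) * la) =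
          1 / (t / 2) * ((b : ℝ) - k) * lb + 1 / (t / 2) * -((a : ℝ) - k) * la := by ring
      rw [e2]
      exact add_le_add hb1 ha1
    refine le_trans ?_ e1
    have e3 : 1 / (t / 2) * (((b : ℝ) - k) * lb + ((k : ℝ) - a) * la) =
        2 * (((b : ℝ) - k) * lb + ((k : ℝ) - a) * la) / t := by
      field_simp
    rw [e3, div_mul_eq_mul_div]
    gcongr
  · rw [div_le_iff₀ hba, hsum]
    have e1 : t / 2 * ((b : ℝ) - k) * lb ≤ t / 2 * ((b : ℝ) - k) * (2 * l) := by
      apply mul_le_mul_of_nonneg_left hlb2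
      apply mul_nonneg (by linarith) (by linarith)
    have e2 : t / 2 * -((a : ℝ) - k) * la ≤ t / 2 * -((a : ℝ) - k) * (2 * l) := by
      apply mul_le_mul_of_nonneg_left hla2
      apply mul_nonneg (by linarith) (by linarith)
    have e3 : t / 2 * ((b : ℝ) - k) * (2 * l) + t / 2 * -((a : ℝ) - k) * (2 * l) =
        t * l * ((b : ℝ) - a) := by ring
    linarith

/-- The averages over the intervals around `k` have the right size up to the factor `t` and make
few jumps. -/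
def Regular (C t : ℝ) (N k : ℕ) : Prop :=
  AllAverages t k ∧ ∀ ε : ℝ, 0 < ε → ε ≤ 1 → ∀ m : ℕ,
    C * (1 / ε ^ 2) * Real.log (2 * t * Real.log (8 / ε)) ≤ m → ¬ Jumps N ε m k

/-- The exponential tail of the number of jumps. -/
lemma jumps_tail : ∃ C : ℝ, 1 ≤ C ∧ ∀ ε : ℝ, 0 < ε → ε ≤ 1 → ∀ N m : ℕ,
    (Set.ncard {k : ℕ | k < N ∧ Jumps N ε m k} : ℝ) ≤ C * Real.exp (-(ε ^ 2 * m / C)) * N := by
  classical
  obtain ⟨K0, hK0, hfacts⟩ := gap_facts
  obtain ⟨C₂, hC₂, h2⟩ := chainM_tail K0 hK0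
  refine ⟨C₂, hC₂, ?_⟩
  intro ε hε hε1 N m
  rcases Nat.eq_zero_or_pos N with hN | hN
  · subst hN
    have h3 : {k : ℕ | k < 0 ∧ Jumps 0 ε m k} = ∅ := by
      ext k
      simp
    rw [h3]
    simp
  · obtain ⟨L, hL, hs, hlow⟩ := hfacts N hN
    have h3 := h2 gapK gapK_pos N hN L hL hs hlow ε hε hε1 m
    have hsub : {k : ℕ | k < N ∧ Jumps N ε m k} ⊆
        (((Finset.range N).filter (fun k => ChainM gapK N ε m k) : Finset ℕ) : Set ℕ) := by
      rintro k ⟨hk, a, b, a', b', hJ1, hJ2⟩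
      rw [Finset.mem_coe, Finset.mem_filter, Finset.mem_range]
      refine ⟨hk, a, b, a', b', fun i hi => ?_, hJ2⟩
      obtain ⟨g1, g2, g3, g4, g5, g6, g7⟩ := hJ1 i hi
      rw [avgGap_eq _ _ (g1.trans g2.le), avgGap_eq _ _ (g3.trans g4.le)] at g7
      exact ⟨g1, g2, g3, g4, g5, g6, g7⟩
    have h4 := Set.ncard_le_ncard hsub (Finset.finite_toSet _)
    rw [Set.ncard_coe_finset] at h4
    have h5 : (Set.ncard {k : ℕ | k < N ∧ Jumps N ε m k} : ℝ) ≤
        (((Finset.range N).filter (fun k => ChainM gapK N ε m k)).card : ℝ) := by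
      exact_mod_cast h4
    exact h5.trans h3

/-- Fewer jumps by a smaller factor. -/
lemma jumps_mono (N : ℕ) (ε ε' : ℝ) (hε' : ε' ≤ ε) (m m' k : ℕ) (hm : m' ≤ m)
    (h : Jumps N ε m k) : Jumps N ε' m' k := by
  obtain ⟨a, b, a', b', h1, h2⟩ := h
  refine ⟨a, b, a', b', fun i hi => ?_, fun i hi => h2 i (by omega)⟩
  obtain ⟨g1, g2, g3, g4, g5, g6, g7⟩ := h1 i (by omega)
  refine ⟨g1, g2, g3, g4, g5, g6, ?_⟩
  have hpos : ∀ c d : ℕ, c ≤ d → 0 ≤ avgGap c d := by
    intro c d hcd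
    unfold avgGap
    have e1 : (Nat.nth Nat.Prime c : ℝ) ≤ Nat.nth Nat.Prime d := by
      exact_mod_cast BiLip.pr_strictMono.monotone hcd
    have e2 : (c : ℝ) ≤ d := by exact_mod_cast hcd
    exact div_nonneg (by linarith) (by linarith)
  have e1 := mul_le_mul_of_nonneg_right hε' (hpos _ _ (g1.trans g2.le))
  have e2 := mul_le_mul_of_nonneg_right hε' (hpos _ _ (g3.trans g4.le))
  rcases g7 with g | g
  · left
    linarith
  · right
    linarith

/-- The exceptional indices for all dyadic `ε` together. -/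
lemma jumps_union : ∃ C : ℝ, 1 ≤ C ∧ ∀ t : ℝ, 1 ≤ t → ∀ N : ℕ,
    (Set.ncard {k : ℕ | k < N ∧ ∃ i m : ℕ,
      C * 4 ^ i * Real.log (2 * t * ((i + 1) * (i + 2))) ≤ m ∧
      Jumps N ((1 / 2) ^ i) m k} : ℝ) ≤ C / t * N := by
  classical
  obtain ⟨C, hC, h⟩ := jumps_tail
  refine ⟨C, hC, ?_⟩
  intro t ht N
  have hC0 : 0 < C := by linarith
  have ht0 : 0 < t := by linarith
  have hN0 : (0 : ℝ) ≤ N := Nat.cast_nonneg N
  obtain ⟨q, hq⟩ : ∃ q : ℕ → ℕ, ∀ i, q i =
    ⌈C * 4 ^ i * Real.log (2 * t * ((i + 1) * (i + 2)))⌉₊ := ⟨_, fun i => rfl⟩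
  -- the exceptional set at one `ε`
  have h1 : ∀ i : ℕ, (Set.ncard {k : ℕ | k < N ∧ Jumps N ((1 / 2) ^ i) (q i) k} : ℝ) ≤
      C / (2 * t) * N * (1 / (i + 1) - 1 / (i + 2)) := by
    intro i
    have hi0 : (0 : ℝ) ≤ i := Nat.cast_nonneg i
    have e0 : 0 < 2 * t * (((i : ℝ) + 1) * (i + 2)) := by positivity
    have e1 := h ((1 / 2) ^ i) (by positivity) (pow_le_one₀ (by norm_num) (by norm_num)) N (q i)
    refine e1.trans ?_
    have e2 : Real.log (2 * t * (((i : ℝ) + 1) * (i + 2))) ≤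
        ((1 / 2 : ℝ) ^ i) ^ 2 * (q i) / C := by
      rw [le_div_iff₀ hC0]
      have e3 : C * 4 ^ i * Real.log (2 * t * (((i : ℝ) + 1) * (i + 2))) ≤ q i := by
        rw [hq]
        exact Nat.le_ceil _
      have e4 : ((1 / 2 : ℝ) ^ i) ^ 2 * 4 ^ i = 1 := by
        rw [← pow_mul, mul_comm i 2, pow_mul, ← mul_pow]
        norm_num
      calc Real.log (2 * t * (((i : ℝ) + 1) * (i + 2))) * C
          = (((1 / 2 : ℝ) ^ i) ^ 2 * 4 ^ i) *
            (C * Real.log (2 * t * (((i : ℝ) + 1) * (i + 2)))) := by rw [e4]; ring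
        _ = ((1 / 2 : ℝ) ^ i) ^ 2 *
            (C * 4 ^ i * Real.log (2 * t * (((i : ℝ) + 1) * (i + 2)))) := by ring
        _ ≤ ((1 / 2 : ℝ) ^ i) ^ 2 * q i := by gcongr
    have e5 : Real.exp (-(((1 / 2 : ℝ) ^ i) ^ 2 * (q i) / C)) ≤
        1 / (2 * t * (((i : ℝ) + 1) * (i + 2))) := by
      calc Real.exp (-(((1 / 2 : ℝ) ^ i) ^ 2 * (q i) / C))
          ≤ Real.exp (-Real.log (2 * t * (((i : ℝ) + 1) * (i + 2)))) := by
            apply Real.exp_le_exp.2
            linarith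
        _ = 1 / (2 * t * (((i : ℝ) + 1) * (i + 2))) := by
            rw [Real.exp_neg, Real.exp_log e0, one_div]
    calc C * Real.exp (-(((1 / 2 : ℝ) ^ i) ^ 2 * (q i) / C)) * N
        ≤ C * (1 / (2 * t * (((i : ℝ) + 1) * (i + 2)))) * N := by gcongr
      _ = C / (2 * t) * N * (1 / (i + 1) - 1 / (i + 2)) := by
          field_simp
          ring
  -- the union
  set S : Set ℕ := {k : ℕ | k < N ∧ ∃ i m : ℕ,
      C * 4 ^ i * Real.log (2 * t * ((i + 1) * (i + 2))) ≤ m ∧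
      Jumps N ((1 / 2) ^ i) m k} with hS
  have hSi : ∀ k ∈ S, ∃ i : ℕ, k < N ∧ Jumps N ((1 / 2) ^ i) (q i) k := by
    rintro k ⟨hk, i, m, h2, h3⟩
    refine ⟨i, hk, jumps_mono N _ _ le_rfl m (q i) k ?_ h3⟩
    rw [hq]
    exact Nat.ceil_le.2 h2
  choose! f hf using hSi
  have hSfin : S.Finite := (Set.finite_lt_nat N).subset fun k hk => hk.1
  obtain ⟨n, hn⟩ : ∃ n : ℕ, ∀ k ∈ S, f k < n := by
    obtain ⟨n, hn⟩ := (hSfin.image f).bddAbove
    exact ⟨n + 1, fun k hk => Nat.lt_succ_of_le (hn (Set.mem_image_of_mem f hk))⟩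
  have h2 : S.ncard ≤ ∑ i ∈ Finset.range n,
      Set.ncard {k : ℕ | k < N ∧ Jumps N ((1 / 2) ^ i) (q i) k} := by
    have hfin : ∀ i : ℕ, {k : ℕ | k < N ∧ Jumps N ((1 / 2) ^ i) (q i) k}.Finite := fun i =>
      (Set.finite_lt_nat N).subset fun k hk => hk.1
    have hsub : S ⊆ (((Finset.range n).biUnion fun i => (hfin i).toFinset : Finset ℕ) : Set ℕ) := by
      intro k hk
      rw [Finset.mem_coe, Finset.mem_biUnion]
      refine ⟨f k, Finset.mem_range.2 (hn k hk), ?_⟩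
      rw [Set.Finite.mem_toFinset]
      exact hf k hk
    have h3 := Set.ncard_le_ncard hsub (Finset.finite_toSet _)
    rw [Set.ncard_coe_finset] at h3
    refine h3.trans (Finset.card_biUnion_le.trans (Finset.sum_le_sum fun i _ => ?_))
    rw [Set.ncard_eq_toFinset_card _ (hfin i)]
  have h3 : (S.ncard : ℝ) ≤ ∑ i ∈ Finset.range n,
      C / (2 * t) * N * (1 / ((i : ℝ) + 1) - 1 / (i + 2)) := by
    have h4 : (S.ncard : ℝ) ≤ ∑ i ∈ Finset.range n,
        (Set.ncard {k : ℕ | k < N ∧ Jumps N ((1 / 2) ^ i) (q i) k} : ℝ) := by exact_mod_cast h2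
    exact h4.trans (Finset.sum_le_sum fun i _ => h1 i)
  have h4 : ∑ i ∈ Finset.range n, (1 / ((i : ℝ) + 1) - 1 / (i + 2)) ≤ 1 := by
    have h5 : ∀ n : ℕ, ∑ i ∈ Finset.range n, (1 / ((i : ℝ) + 1) - 1 / (i + 2)) =
        1 - 1 / ((n : ℝ) + 1) := by
      intro n
      induction n with
      | zero => simp
      | succ n ih =>
        rw [Finset.sum_range_succ, ih]
        push_cast
        have e1 : (n : ℝ) + 1 + 1 = n + 2 := by ring
        rw [e1]
        ring
    rw [h5]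
    have : (0 : ℝ) ≤ 1 / ((n : ℝ) + 1) := by positivity
    linarith
  rw [← Finset.mul_sum] at h3
  refine h3.trans ?_
  calc C / (2 * t) * N * ∑ i ∈ Finset.range n, (1 / ((i : ℝ) + 1) - 1 / (i + 2))
      ≤ C / (2 * t) * N * 1 := by gcongr
    _ ≤ C / t * N := by
        rw [mul_one]
        gcongr
        linarith

theorem result : ∃ C : ℝ, 0 < C ∧ ∀ t : ℝ, 1 ≤ t → ∀ N : ℕ,
    (Set.ncard {k : ℕ | k < N ∧ ¬ Regular C t N k} : ℝ) ≤ C / t * N := by
  classical
  obtain ⟨C₁, hC₁, h1⟩ := BiLip.two_law_quant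
  obtain ⟨C₂, hC₂, h2⟩ := jumps_union
  refine ⟨2 * C₁ + 12 * C₂, by linarith, ?_⟩
  intro t ht N
  have ht0 : 0 < t := by linarith
  have h3 := h1 (t / 2) (by positivity) N
  have h4 := h2 t ht N
  set A : Set ℕ := (((Finset.range N).filter
    (fun k => ¬ BiLip.Two (1 / (t / 2)) (t / 2) k) : Finset ℕ) : Set ℕ) with hA
  set S : Set ℕ := {k : ℕ | k < N ∧ ∃ i m : ℕ,
      C₂ * 4 ^ i * Real.log (2 * t * ((i + 1) * (i + 2))) ≤ m ∧
      Jumps N ((1 / 2) ^ i) m k} with hS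
  have hSfin : S.Finite := (Set.finite_lt_nat N).subset fun k hk => hk.1
  have hsub : {k : ℕ | k < N ∧ ¬ Regular (2 * C₁ + 12 * C₂) t N k} ⊆ A ∪ S := by
    rintro k ⟨hk, hb⟩
    by_contra hcon
    rw [Set.mem_union, not_or] at hcon
    obtain ⟨hkA, hkS⟩ := hcon
    apply hb
    refine ⟨?_, ?_⟩
    · apply all_of_two t ht0 k
      by_contra hT
      apply hkA
      rw [hA, Finset.mem_coe, Finset.mem_filter, Finset.mem_range]
      exact ⟨hk, hT⟩
    · intro ε hε hε1 m hm hJ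
      apply hkS
      -- the dyadic `ε`
      obtain ⟨i, hi1, hi2⟩ : ∃ i : ℕ, (1 / 2 : ℝ) ^ i ≤ ε ∧ ε ≤ 2 * (1 / 2) ^ i := by
        obtain ⟨n, hn1, hn2⟩ := exists_nat_pow_near (show (1 : ℝ) ≤ 1 / ε by
          rw [le_div_iff₀ hε]; linarith) (show (1 : ℝ) < 2 by norm_num)
        refine ⟨n + 1, ?_, ?_⟩
        · rw [one_div_pow, div_le_iff₀ (by positivity)]
          rw [div_lt_iff₀ hε] at hn2
          linarith
        · rw [le_div_iff₀ hε] at hn1
          have e1 : (2 : ℝ) * (1 / 2) ^ (n + 1) = 1 / 2 ^ n := by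
            rw [one_div_pow, pow_succ]
            field_simp
          rw [e1, le_div_iff₀ (by positivity)]
          linarith
      refine ⟨hk, i, m, ?_, jumps_mono N ε _ hi1 m m k le_rfl hJ⟩
      refine le_trans ?_ hm
      -- comparison of the numbers of jumps
      obtain ⟨l, hl⟩ : ∃ l, l = Real.log (8 / ε) := ⟨_, rfl⟩
      have hlog2 := Real.log_two_gt_d9
      have hil : ((i : ℝ) + 2) * Real.log 2 ≤ l := by
        have e1 : (2 : ℝ) ^ (i + 2) ≤ 8 / ε := by
          rw [le_div_iff₀ hε]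
          calc (2 : ℝ) ^ (i + 2) * ε ≤ 2 ^ (i + 2) * (2 * (1 / 2) ^ i) := by gcongr
            _ = 8 * (2 * (1 / 2)) ^ i := by rw [mul_pow]; ring
            _ = 8 := by norm_num
        have e2 := Real.log_le_log (by positivity) e1
        rw [Real.log_pow] at e2
        rw [hl]
        push_cast at e2
        linarith
      have hi0 : (0 : ℝ) ≤ i := Nat.cast_nonneg i
      have hl1 : 1 ≤ l := by nlinarith
      have hil2 : (i : ℝ) + 2 ≤ 2 * l := by nlinarith
      have h6 : 2 * t * (((i : ℝ) + 1) * (i + 2)) ≤ (2 * t * l) ^ 3 := by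
        have e1 : ((i : ℝ) + 1) * (i + 2) ≤ (2 * l) * (2 * l) := by
          apply mul_le_mul (by linarith) hil2 (by positivity) (by positivity)
        have e2 : 1 ≤ t ^ 2 * l := by nlinarith
        calc 2 * t * (((i : ℝ) + 1) * (i + 2)) ≤ 2 * t * ((2 * l) * (2 * l)) := by gcongr
          _ = 8 * t * l ^ 2 * 1 := by ring
          _ ≤ 8 * t * l ^ 2 * (t ^ 2 * l) := by gcongr
          _ = (2 * t * l) ^ 3 := by ring
      have h7 : Real.log (2 * t * (((i : ℝ) + 1) * (i + 2))) ≤ 3 * Real.log (2 * t * l) := by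
        have e1 := Real.log_le_log (by positivity) h6
        rw [Real.log_pow] at e1
        push_cast at e1
        exact e1
      have h8 : 0 ≤ Real.log (2 * t * l) := by
        apply Real.log_nonneg
        nlinarith
      have h9 : (4 : ℝ) ^ i ≤ 4 * (1 / ε ^ 2) := by
        rw [mul_one_div, le_div_iff₀ (by positivity)]
        calc (4 : ℝ) ^ i * ε ^ 2 ≤ 4 ^ i * (2 * (1 / 2) ^ i) ^ 2 := by gcongr
          _ = 4 * (4 * (1 / 2) ^ 2) ^ i := by
              rw [mul_pow (2 : ℝ), mul_pow (4 : ℝ), ← pow_mul, ← pow_mul, mul_comm i 2]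
              ring
          _ = 4 := by norm_num
      have h10 : 0 ≤ Real.log (2 * t * (((i : ℝ) + 1) * (i + 2))) := by
        apply Real.log_nonneg
        have e1 : (1 : ℝ) * 1 ≤ ((i : ℝ) + 1) * (i + 2) := by
          apply mul_le_mul <;> linarith
        have e2 : (2 * 1 : ℝ) * 1 ≤ 2 * t * (((i : ℝ) + 1) * (i + 2)) := by
          apply mul_le_mul _ (by linarith) (by norm_num) (by positivity)
          linarith
        linarith
      rw [← hl]
      calc C₂ * 4 ^ i * Real.log (2 * t * (((i : ℝ) + 1) * (i + 2)))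
          ≤ C₂ * (4 * (1 / ε ^ 2)) * (3 * Real.log (2 * t * l)) := by gcongr
        _ = 12 * C₂ * (1 / ε ^ 2) * Real.log (2 * t * l) := by ring
        _ ≤ (2 * C₁ + 12 * C₂) * (1 / ε ^ 2) * Real.log (2 * t * l) := by
            gcongr
            linarith
  have h5 : (Set.ncard {k : ℕ | k < N ∧ ¬ Regular (2 * C₁ + 12 * C₂) t N k} : ℝ) ≤
      A.ncard + S.ncard := by
    have e1 := (Set.ncard_le_ncard hsub ((Finset.finite_toSet _).union hSfin)).trans
      (Set.ncard_union_le A S)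
    exact_mod_cast e1
  rw [hA, Set.ncard_coe_finset] at h5
  have h6 : C₁ / (t / 2) = 2 * C₁ / t := by field_simp
  rw [h6] at h3
  have h7 : 2 * C₁ / t * N + C₂ / t * N ≤ (2 * C₁ + 12 * C₂) / t * N := by
    rw [← add_mul, ← add_div]
    gcongr
    linarith
  linarith

end Pool.Agent.H.MP_711652_nt.Variants.GapAverageJumps
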