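import Mathlib
import Pool.Agent.H.MP_711652_nt.G2.Final

/-!
# Near almost every prime there is a gap longer than `lam` times the mean gap, for every `lam`
-/

set_option autoImplicit false

namespace Pool.Agent.H.MP_711652_nt.Variants.LongGapNearby

/-- For all real `lam` and all `eps > 0` there are `T` and `X₀` such that for all `X ≥ X₀`, all but
at most `eps X / log X` of the primes `p ≤ X` have consecutive primes `q < q'` with
`p ≤ q ≤ p + T log X` and `q' - q ≥ lam log X`. -/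
theorem result (lam eps : ℝ) (heps : 0 < eps) :
    ∃ T : ℝ, ∃ X₀ : ℕ, ∀ X : ℕ, X₀ ≤ X →
      ({p : ℕ | p ≤ X ∧ p.Prime ∧ ¬ ∃ k : ℕ, p ≤ Nat.nth Nat.Prime k ∧
          (Nat.nth Nat.Prime k : ℝ) ≤ p + T * Real.log X ∧
          lam * Real.log X ≤ (Nat.nth Nat.Prime (k + 1) : ℝ) - Nat.nth Nat.Prime k}.ncard : ℝ) ≤
        eps * X / Real.log X := by
  obtain ⟨T, -, X₀, h⟩ :=
    Pool.Agent.H.MP_711652_nt.G2.thmG (max lam 1) eps (lt_max_of_lt_right one_pos) heps
  refine ⟨T, max X₀ 1, fun X hX => ?_⟩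
  have hX₀ : X₀ ≤ X := (le_max_left _ _).trans hX
  have hX1 : 1 ≤ X := (le_max_right _ _).trans hX
  have hlog : 0 ≤ Real.log X := Real.log_nonneg (by exact_mod_cast hX1)
  refine le_trans (Nat.cast_le.2 ?_) (h X hX₀)
  apply Set.ncard_le_ncard
  · rintro p ⟨h1, h2, h3⟩
    refine ⟨h1, h2, fun hk => h3 ?_⟩
    obtain ⟨k, hk1, hk2, hk3⟩ := hk
    exact ⟨k, hk1, hk2, (mul_le_mul_of_nonneg_right (le_max_left lam 1) hlog).trans hk3⟩
  · exact (Set.finite_Iic X).subset (fun p hp => hp.1)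

end Pool.Agent.H.MP_711652_nt.Variants.LongGapNearby
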